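import Pool.Agent.Q121.Golod.Kos

/-! # Cycles of the Koszul complex modulo boundaries, and the trivial Massey operation -/

set_option autoImplicit false

universe u

namespace Pool.Agent.Q121.Golod

/-- the properties of the ring which are used -/
structure Good {R : Type u} [CommRing R] (x : Fin 3 → R) : Prop where
  nil : ∀ a ∈ Ideal.span (Set.range x) ^ 2, ∀ b ∈ Ideal.span (Set.range x) ^ 2, a * b = 0
  p1 : ∀ a b c : R, a * x 0 + b * x 1 + c * x 2 = 0 → ∃ p q r : R,
    a - (p * x 1 + q * x 2) ∈ Ideal.span (Set.range x) ^ 2 ∧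
    b - (-(p * x 0) + r * x 2) ∈ Ideal.span (Set.range x) ^ 2 ∧
    c - (-(q * x 0) - r * x 1) ∈ Ideal.span (Set.range x) ^ 2
  p2 : ∀ p q r : R, p * x 1 + q * x 2 = 0 → p * x 0 - r * x 2 = 0 → q * x 0 + r * x 1 = 0 →
    ∃ α : R, p - α * x 2 ∈ Ideal.span (Set.range x) ^ 2 ∧
      q + α * x 1 ∈ Ideal.span (Set.range x) ^ 2 ∧
      r - α * x 0 ∈ Ideal.span (Set.range x) ^ 2
  p3 : ∀ p : R, p * x 0 = 0 → p * x 1 = 0 → p * x 2 = 0 → p ∈ Ideal.span (Set.range x) ^ 2

variable {R : Type u} [CommRing R] {x : Fin 3 → R}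

/-- the submodule `m² K` -/
abbrev M2 (x : Fin 3 → R) : Submodule R (KK R) := Ideal.span (Set.range x) ^ 2 • ⊤

theorem smul_mem_M2 {a : R} (ha : a ∈ Ideal.span (Set.range x) ^ 2) (c : KK R) :
    a • c ∈ M2 x := Submodule.smul_mem_smul ha trivial

theorem kd_ee (a b : Fin 3) : kd x (e a * e b) = x a • e b - x b • (e a : KK R) := by
  rw [kd_e_mul, kd_e, ← Algebra.commutes, ← Algebra.smul_def]

theorem kd_eee : kd x (e 0 * (e 1 * e 2)) =
    x 0 • (e 1 * e 2) - x 1 • (e 0 * e 2) + x 2 • (e 0 * e 1 : KK R) := by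
  rw [kd_e_mul, kd_ee, mul_sub, mul_smul_comm, mul_smul_comm]
  abel

theorem cyc (h : Good x) (i : ℕ) (c : KK R) (hc : c ∈ ⋀[R]^(i + 1) (Fin 3 → R))
    (hd : kd x c = 0) : ∃ b ∈ ⋀[R]^(i + 2) (Fin 3 → R), c - kd x b ∈ M2 x := by
  rcases i with _ | _ | _ | i
  · obtain ⟨v, rfl⟩ := (mem_one_iff c).1 hc
    rw [kd_ι] at hd
    have h0 := (ExteriorAlgebra.algebraMap_eq_zero_iff (R := R) (Fin 3 → R) _).1 hd
    rw [Fin.sum_univ_three] at h0
    obtain ⟨p, q, r, h1, h2, h3⟩ := h.p1 _ _ _ h0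
    refine ⟨(-p) • (e 0 * e 1) + (-q) • (e 0 * e 2) + (-r) • (e 1 * e 2),
      Submodule.add_mem _ (Submodule.add_mem _ (Submodule.smul_mem _ _ (ee_mem _ _))
        (Submodule.smul_mem _ _ (ee_mem _ _))) (Submodule.smul_mem _ _ (ee_mem _ _)), ?_⟩
    have : ExteriorAlgebra.ι R v - kd x ((-p) • (e 0 * e 1) + (-q) • (e 0 * e 2) +
        (-r) • (e 1 * e 2)) = (v 0 - (p * x 1 + q * x 2)) • e 0 +
        (v 1 - (-(p * x 0) + r * x 2)) • e 1 + (v 2 - (-(q * x 0) - r * x 1)) • e 2 := by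
      rw [map_add, map_add, map_smul, map_smul, map_smul, kd_ee, kd_ee, kd_ee, ι_eq v]
      module
    rw [this]
    exact Submodule.add_mem _ (Submodule.add_mem _ (smul_mem_M2 h1 _) (smul_mem_M2 h2 _))
      (smul_mem_M2 h3 _)
  · obtain ⟨p, q, r, rfl⟩ := two c hc
    have h0 : ExteriorAlgebra.ι R ![-(p * x 1 + q * x 2), p * x 0 - r * x 2, q * x 0 + r * x 1] =
        0 := by
      rw [← hd, ι_eq, map_add, map_add, map_smul, map_smul, map_smul, kd_ee, kd_ee, kd_ee]
      simp only [Matrix.cons_val_zero, Matrix.cons_val_one, Matrix.cons_val]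
      module
    have h1 := (ExteriorAlgebra.ι_eq_zero_iff (R := R) _).1 h0
    have e0 := congrFun h1 0
    have e1 := congrFun h1 1
    have e2 := congrFun h1 2
    simp only [Matrix.cons_val_zero, Matrix.cons_val_one, Matrix.cons_val, Pi.zero_apply] at e0 e1 e2
    obtain ⟨α, g1, g2, g3⟩ := h.p2 p q r (by linear_combination -e0) e1 e2
    refine ⟨α • (e 0 * (e 1 * e 2)), Submodule.smul_mem _ _ (eee_mem _ _ _), ?_⟩
    have : p • (e 0 * e 1) + q • (e 0 * e 2) + r • (e 1 * e 2) - kd x (α • (e 0 * (e 1 * e 2))) =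
        (p - α * x 2) • (e 0 * e 1) + (q + α * x 1) • (e 0 * e 2) +
          (r - α * x 0) • (e 1 * e 2 : KK R) := by
      rw [map_smul, kd_eee]
      module
    rw [this]
    exact Submodule.add_mem _ (Submodule.add_mem _ (smul_mem_M2 g1 _) (smul_mem_M2 g2 _))
      (smul_mem_M2 g3 _)
  · obtain ⟨p, rfl⟩ := three c hc
    refine ⟨0, Submodule.zero_mem _, ?_⟩
    rw [map_zero, sub_zero]
    rw [map_smul, kd_eee] at hd
    -- contractions by the coordinate functionals
    have key : ∀ (d₁ d₂ : Module.Dual R (Fin 3 → R)),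
        CliffordAlgebra.contractLeft (Q := (0 : QuadraticForm R (Fin 3 → R))) d₂
          (CliffordAlgebra.contractLeft (Q := (0 : QuadraticForm R (Fin 3 → R))) d₁
            (p • (x 0 • (e 1 * e 2) - x 1 • (e 0 * e 2) + x 2 • (e 0 * e 1 : KK R)))) = 0 := by
      intro d₁ d₂
      rw [hd, map_zero, map_zero]
    have hcon : ∀ (d₁ d₂ : Module.Dual R (Fin 3 → R)) (a b : Fin 3),
        CliffordAlgebra.contractLeft (Q := (0 : QuadraticForm R (Fin 3 → R))) d₂
          (CliffordAlgebra.contractLeft (Q := (0 : QuadraticForm R (Fin 3 → R))) d₁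
            (e a * e b : KK R)) = algebraMap R _
              (d₁ (Pi.single a 1) * d₂ (Pi.single b 1) - d₁ (Pi.single b 1) * d₂ (Pi.single a 1)) := by
      intro d₁ d₂ a b
      unfold e
      rw [CliffordAlgebra.contractLeft_ι_mul]
      rw [CliffordAlgebra.contractLeft_ι, map_sub, map_smul, CliffordAlgebra.contractLeft_ι,
        CliffordAlgebra.contractLeft_mul_algebraMap, CliffordAlgebra.contractLeft_ι]
      rw [Algebra.smul_def, ← map_mul, ← map_mul, ← map_sub]
      congr 1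
      ring
    have key2 : ∀ (d₁ d₂ : Module.Dual R (Fin 3 → R)),
        p * (x 0 * (d₁ (Pi.single 1 1) * d₂ (Pi.single 2 1) - d₁ (Pi.single 2 1) * d₂ (Pi.single 1 1))
        - x 1 * (d₁ (Pi.single 0 1) * d₂ (Pi.single 2 1) - d₁ (Pi.single 2 1) * d₂ (Pi.single 0 1))
        + x 2 * (d₁ (Pi.single 0 1) * d₂ (Pi.single 1 1) - d₁ (Pi.single 1 1) * d₂ (Pi.single 0 1)))
        = 0 := by
      intro d₁ d₂
      have h1 := key d₁ d₂
      simp only [map_smul, map_add, map_sub, hcon] at h1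
      rw [← ExteriorAlgebra.algebraMap_eq_zero_iff (R := R) (Fin 3 → R)]
      rw [← h1]
      simp only [map_mul, map_add, map_sub, Algebra.smul_def]
    have P := fun i : Fin 3 => (LinearMap.proj i : (Fin 3 → R) →ₗ[R] R)
    refine smul_mem_M2 (h.p3 p ?_ ?_ ?_) _
    · have := key2 (LinearMap.proj 1) (LinearMap.proj 2)
      simpa using this
    · have := key2 (LinearMap.proj 0) (LinearMap.proj 2)
      simpa using this
    · have := key2 (LinearMap.proj 0) (LinearMap.proj 1)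
      simpa using this
  · refine ⟨0, Submodule.zero_mem _, ?_⟩
    have : c = 0 := four i c (by
      convert hc using 2)
    rw [this, map_zero, sub_zero]
    exact Submodule.zero_mem _

theorem M2_mul (h : Good x) {a b : KK R} (ha : a ∈ M2 x) (hb : b ∈ M2 x) : a * b = 0 := by
  refine Submodule.smul_induction_on ha ?_ ?_
  · intro r hr c _
    refine Submodule.smul_induction_on hb ?_ ?_
    · intro s hs d _
      rw [smul_mul_smul_comm, h.nil r hr s hs, zero_smul]
    · intro y z hy hz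
      rw [mul_add, hy, hz, add_zero]
  · intro y z hy hz
    rw [add_mul, hy, hz, add_zero]

end Pool.Agent.Q121.Golod
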