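import Mathlib

/-! # Golod quotients: definitions (trivial Massey operations on the Koszul complex) -/

set_option autoImplicit false

universe u

namespace Pool.Agent.Q121.Golod

/-- The differential of the Koszul complex of the sequence `x` in `R`: the antiderivation of the
exterior algebra of `R ^ n` with `e_a ↦ x_a`. -/
noncomputable def kd {R : Type u} [CommRing R] {n : ℕ} (x : Fin n → R) :
    ExteriorAlgebra R (Fin n → R) →ₗ[R] ExteriorAlgebra R (Fin n → R) :=
  CliffordAlgebra.contractLeft (Fintype.linearCombination R x)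

/-- A trivial Massey operation on the Koszul complex `K` of `x`, where `k` is the residue field. -/
structure TrivialMassey (k : Type u) {R : Type u} [Field k] [CommRing R] [Algebra k R] {n : ℕ}
    (x : Fin n → R) where
  /-- the elements of a `k`-basis of `H_{i+1}(K)` -/
  Λ : ℕ → Type u
  /-- cycles representing them -/
  z : ∀ i, Λ i → ExteriorAlgebra R (Fin n → R)
  z_mem : ∀ i (l : Λ i), z i l ∈ ⋀[R]^(i + 1) (Fin n → R)
  z_cycle : ∀ i (l : Λ i), kd x (z i l) = 0
  /-- the classes generate `H_{i+1}(K)` over `k` -/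
  span : ∀ i, ∀ c ∈ ⋀[R]^(i + 1) (Fin n → R), kd x c = 0 →
    ∃ f : Λ i →₀ k, ∃ b ∈ ⋀[R]^(i + 2) (Fin n → R),
      c = (f.sum fun l a => algebraMap k R a • z i l) + kd x b
  /-- the classes are linearly independent over `k` -/
  indep : ∀ i, ∀ f : Λ i →₀ k, ∀ b ∈ ⋀[R]^(i + 2) (Fin n → R),
    (f.sum fun l a => algebraMap k R a • z i l) = kd x b → f = 0
  /-- the operation -/
  μ : List (Σ i : ℕ, Λ i) → ExteriorAlgebra R (Fin n → R)
  μ_single : ∀ l : Σ i : ℕ, Λ i, μ [l] = z l.1 l.2
  μ_mem : ∀ w, w ≠ [] → μ w ∈ ⋀[R]^((w.map fun l => l.1 + 1).sum + w.length - 1) (Fin n → R)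
  μ_max : ∀ w, μ w ∈
    (Ideal.span (Set.range x) • ⊤ : Submodule R (ExteriorAlgebra R (Fin n → R)))
  μ_d : ∀ w, 2 ≤ w.length → kd x (μ w) = ∑ j ∈ Finset.Ioo 0 w.length,
    (-1 : R) ^ (((w.take j).map fun l => l.1 + 1).sum + j) • (μ (w.take j) * μ (w.drop j))

/-- `R`, with residue field `k` and maximal ideal generated by `x`, is Golod: the Koszul complex of
`x` has a trivial Massey operation. -/
def IsGolod (k : Type u) {R : Type u} [Field k] [CommRing R] [Algebra k R] {n : ℕ}
    (x : Fin n → R) : Prop := Nonempty (TrivialMassey k x)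

end Pool.Agent.Q121.Golod
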