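import Pool.Agent.Q121.Golod.Ring

/-! # Homogeneity, height, Artinian, socle -/

set_option autoImplicit false

universe u

open MvPolynomial

namespace Pool.Agent.Q121.Golod

variable {k : Type u} [Field k]

theorem I_homog (p : MvPolynomial (Fin 3) k) (hp : p ∈ I k) (n : ℕ) :
    homogeneousComponent n p ∈ I k := by
  have key : ∀ a b c, c3 (homogeneousComponent n p) a b c =
      if a + b + c = n then c3 p a b c else 0 := by
    intro a b c
    rw [c3, coeff_homogeneousComponent, E_degree]
    rfl
  obtain ⟨h1, h2, h3, h4, h5, h6, h7, h8, h9, h10, h11, h12⟩ := hp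
  unfold φ1 at h11
  unfold φ2 at h12
  rw [mem_I]
  constructor <;> simp only [key, φ1, φ2, h1, h2, h3, h4, h5, h6, h7, h8, h9, h10, ite_self]
  · by_cases h : n = 3
    · subst h; simp; linear_combination h11
    · rw [if_neg (by omega), if_neg (by omega), add_zero]
  · by_cases h : n = 3
    · subst h; simp; linear_combination h12
    · rw [if_neg (by omega), if_neg (by omega), add_zero]

/-- all coefficients up to degree three -/
noncomputable def cf (k : Type u) [Field k] :
    MvPolynomial (Fin 3) k →ₗ[k] (Fin 12 → k) where
  toFun p := ![c3 p 0 0 0, c3 p 1 0 0, c3 p 0 1 0, c3 p 0 0 1, c3 p 2 0 0, c3 p 0 2 0,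
    c3 p 0 0 2, c3 p 1 1 0, c3 p 1 0 1, c3 p 0 1 1, φ1 p, φ2 p]
  map_add' p q := by
    ext i
    fin_cases i <;> simp [c3_add, φ1, φ2] <;> ring
  map_smul' r p := by
    ext i
    rw [smul_eq_C_mul]
    fin_cases i <;> simp [c3_Cmul, φ1, φ2] <;> ring

theorem cf_ker (p : MvPolynomial (Fin 3) k) : cf k p = 0 ↔ InI p := by
  constructor
  · intro h
    have := fun i => congrFun h i
    constructor
    · exact this 0
    · exact this 1
    · exact this 2
    · exact this 3
    · exact this 4
    · exact this 5
    · exact this 6
    · exact this 7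
    · exact this 8
    · exact this 9
    · exact this 10
    · exact this 11
  · rintro ⟨h1, h2, h3, h4, h5, h6, h7, h8, h9, h10, h11, h12⟩
    ext i
    fin_cases i
    · exact h1
    · exact h2
    · exact h3
    · exact h4
    · exact h5
    · exact h6
    · exact h7
    · exact h8
    · exact h9
    · exact h10
    · exact h11
    · exact h12

/-- coefficient map on the quotient -/
noncomputable def cq (k : Type u) [Field k] : RR k →ₗ[k] (Fin 12 → k) :=
  Submodule.liftQ ((I k).restrictScalars k) (cf k) (by
    intro p hp
    rw [LinearMap.mem_ker, cf_ker]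
    exact hp)

theorem cq_mk (p : MvPolynomial (Fin 3) k) : cq k (Ideal.Quotient.mk (I k) p) = cf k p := rfl

theorem cq_inj : Function.Injective (cq k) := by
  rw [injective_iff_map_eq_zero]
  intro a ha
  obtain ⟨p, rfl⟩ := Ideal.Quotient.mk_surjective a
  rw [cq_mk, cf_ker] at ha
  rwa [mk_eq_zero]

theorem fin : Module.Finite k (RR k) := Module.Finite.of_injective (cq k) cq_inj

theorem artin : IsArtinianRing (RR k) := by
  have := fin (k := k)
  exact IsArtinianRing.of_finite k (RR k)

end Pool.Agent.Q121.Golod
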