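import Pool.Agent.Q121.Golod.Fin1

/-! # Height and type -/

set_option autoImplicit false

universe u

open MvPolynomial

namespace Pool.Agent.Q121.Golod

variable {k : Type u} [Field k]


/-- kernel primes -/
noncomputable def P (k : Type u) [Field k] (v : Fin 3 → MvPolynomial (Fin 3) k) : Ideal (MvPolynomial (Fin 3) k) :=
  RingHom.ker (aeval (R := k) v : MvPolynomial (Fin 3) k →ₐ[k] MvPolynomial (Fin 3) k)

instance (v : Fin 3 → MvPolynomial (Fin 3) k) : (P k v).IsPrime := RingHom.ker_isPrime _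

theorem P_le (v w : Fin 3 → MvPolynomial (Fin 3) k) (h : ∀ i, aeval (R := k) w (v i) = w i) : P k v ≤ P k w := by
  intro p hp
  have h2 : (aeval (R := k) w).comp (aeval v) = aeval (R := k) w := by
    apply MvPolynomial.algHom_ext
    intro i
    rw [AlgHom.comp_apply, aeval_X, aeval_X, h]
  have h3 : aeval (R := k) v p = 0 := hp
  change aeval (R := k) w p = 0
  rw [← h2, AlgHom.comp_apply, h3, map_zero]

theorem mem_P (v : Fin 3 → MvPolynomial (Fin 3) k) (i : Fin 3) : X i ∈ P k v ↔ v i = 0 := by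
  change aeval (R := k) v (X i) = 0 ↔ _
  rw [aeval_X]

theorem lt1 : P k X < P k ![0, X 1, X 2] := by
  refine lt_of_le_of_ne (P_le _ _ fun i => by simp) ?_
  intro h
  have h1 : X 0 ∈ P k ![0, X 1, X 2] := by rw [mem_P]; rfl
  rw [← h, mem_P] at h1
  exact X_ne_zero _ h1

theorem lt2 : P k ![0, X 1, X 2] < P k ![0, 0, X 2] := by
  refine lt_of_le_of_ne (P_le _ _ fun i => by fin_cases i <;> simp) ?_
  intro h
  have h1 : X 1 ∈ P k ![0, 0, X 2] := by rw [mem_P]; rfl
  rw [← h, mem_P] at h1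
  exact X_ne_zero _ h1

theorem lt3 : P k ![0, 0, X 2] < P k ![0, 0, 0] := by
  refine lt_of_le_of_ne (P_le _ _ fun i => by fin_cases i <;> simp) ?_
  intro h
  have h1 : X 2 ∈ P k ![0, 0, 0] := by rw [mem_P]; rfl
  rw [← h, mem_P] at h1
  exact X_ne_zero _ h1

theorem three_le : 3 ≤ (P k ![0, 0, 0]).height := by
  have h1 := Ideal.height_add_one_le_of_lt_of_isPrime (lt1 (k := k))
  have h2 := Ideal.height_add_one_le_of_lt_of_isPrime (lt2 (k := k))
  have h3 := Ideal.height_add_one_le_of_lt_of_isPrime (lt3 (k := k))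
  calc (3 : ℕ∞) = 0 + 1 + 1 + 1 := by norm_num
    _ ≤ (P k X).height + 1 + 1 + 1 := by gcongr; exact zero_le
    _ ≤ _ := by
      refine le_trans (add_le_add_left (add_le_add_left h1 1) 1) (le_trans (add_le_add_left h2 1) h3)

theorem P_m : P k ![0, 0, 0] ≤ idealOfVars (Fin 3) k := by
  intro p hp
  have h3 : aeval (R := k) (![0, 0, 0] : Fin 3 → MvPolynomial (Fin 3) k) p = 0 := hp
  have h4 : (![0, 0, 0] : Fin 3 → MvPolynomial (Fin 3) k) = 0 := by ext1 i; fin_cases i <;> rfl
  rw [h4] at h3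
  have h5 : p - C (constantCoeff p) ∈ idealOfVars (Fin 3) k := by
    have := (mem_pow (k := k) 1 (p - C (constantCoeff p))).2 (by
      intro a b c habc
      obtain ⟨rfl, rfl, rfl⟩ : a = 0 ∧ b = 0 ∧ c = 0 := by omega
      rw [c3_sub, c3_C, if_pos ⟨rfl, rfl, rfl⟩, c3, E_zero]
      exact sub_self _)
    rwa [pow_one] at this
  have h6 : constantCoeff p = 0 := by
    have := h3
    rw [MvPolynomial.aeval_zero] at this
    have h7 : Function.Injective (algebraMap k (MvPolynomial (Fin 3) k)) := (algebraMap k _).injective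
    exact h7 (by rw [this, map_zero])
  rwa [h6, map_zero, sub_zero] at h5

theorem I_ne : I k ≠ ⊤ := by
  intro h
  have h1 : (1 : MvPolynomial (Fin 3) k) ∈ I k := by rw [h]; trivial
  have h2 := h1.c000
  rw [c3, E_zero, coeff_zero_one] at h2
  exact one_ne_zero h2

theorem height_I : (I k).height = 3 := by
  apply le_antisymm
  · have h := Ideal.height_le_ringKrullDim_of_ne_top (I_ne (k := k))
    rw [MvPolynomial.ringKrullDim_of_isNoetherianRing, ringKrullDim_eq_zero_of_field] at h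
    simp at h
    have h' : (((I k).height : ℕ∞) : WithBot ℕ∞) ≤ ((3 : ℕ∞) : WithBot ℕ∞) := h
    exact WithBot.coe_le_coe.1 h'
  · rw [Ideal.height_eq_inf_minimalPrimes]
    refine le_iInf₂ fun J hJ => ?_
    have : J.IsPrime := hJ.1.1
    have h1 : P k ![0, 0, 0] ≤ J := by
      refine le_trans P_m ?_
      have h2 : idealOfVars (Fin 3) k ^ 4 ≤ J := le_trans four_le hJ.1.2
      exact (Ideal.IsPrime.pow_le_iff (by norm_num)).1 h2
    exact le_trans three_le (Ideal.height_mono h1)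


/-- the maximal ideal -/
noncomputable abbrev mm (k : Type u) [Field k] : Ideal (RR k) := Ideal.span (Set.range (xx k))

/-- the functionals on the quotient -/
noncomputable def ψ (k : Type u) [Field k] : RR k →ₗ[k] k × k :=
  LinearMap.prod (LinearMap.proj 10 ∘ₗ cq k) (LinearMap.proj 11 ∘ₗ cq k)

theorem ψ_mk (p : MvPolynomial (Fin 3) k) : ψ k (Ideal.Quotient.mk (I k) p) = (φ1 p, φ2 p) := rfl

theorem soc (r : RR k) (h : ∀ i, r * xx k i = 0) (h2 : ψ k r = 0) : r = 0 := by
  obtain ⟨p, rfl⟩ := Ideal.Quotient.mk_surjective r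
  have h0 : InI (p * X 0) := by rw [← mk_eq_zero, map_mul]; exact h 0
  have h1 : InI (p * X 1) := by rw [← mk_eq_zero, map_mul]; exact h 1
  have h3 : InI (p * X 2) := by rw [← mk_eq_zero, map_mul]; exact h 2
  rw [ψ_mk, Prod.mk_eq_zero] at h2
  rw [mk_eq_zero]
  obtain ⟨-, a100, a010, a001, a200, a020, a002, a110, a101, a011, a1, a2⟩ := h0
  obtain ⟨-, b100, b010, b001, b200, b020, b002, b110, b101, b011, b1, b2⟩ := h1
  obtain ⟨-, d100, d010, d001, d200, d020, d002, d110, d101, d011, d1, d2⟩ := h3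
  simp only [φ1, φ2, c3_X0, c3_X1, c3_X2, c3_X0', c3_X1', c3_X2', c3_X2'', c3_X0_zero,
      c3_X1_zero, c3_X2_zero, add_zero, zero_add] at *
  constructor
  · exact a100
  · exact a200
  · exact a110
  · exact a101
  · exact b1
  · rw [b1, zero_add] at d2; exact d2
  · exact d1
  · exact a1
  · exact a2
  · exact b2
  · exact h2.1
  · exact h2.2

/-- lifts -/
noncomputable def el (a b : k) : MvPolynomial (Fin 3) k :=
  C a * (1 * X 2 * X 2 * X 2) + C b * (1 * X 1 * X 1 * X 2)

theorem one_c3 (a b c : ℕ) : c3 (1 : MvPolynomial (Fin 3) k) a b c =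
    if a = 0 ∧ b = 0 ∧ c = 0 then 1 else 0 := by
  rw [← C_1, c3_C]

theorem el_mem (a b : k) (i : Fin 3) : Ideal.Quotient.mk (I k) (el a b) * xx k i = 0 := by
  change Ideal.Quotient.mk (I k) (el a b) * Ideal.Quotient.mk (I k) (X i) = 0
  rw [← map_mul, Ideal.Quotient.eq_zero_iff_mem]
  apply I_of_four
  have hX : ∀ j : Fin 3, X j ∈ idealOfVars (Fin 3) k := fun j => Ideal.subset_span ⟨j, rfl⟩
  have h3 : el a b ∈ idealOfVars (Fin 3) k ^ 3 := by
    rw [el, pow_succ, pow_two, one_mul, one_mul]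
    refine Ideal.add_mem _ (Ideal.mul_mem_left _ _ ?_) (Ideal.mul_mem_left _ _ ?_)
    · exact Ideal.mul_mem_mul (Ideal.mul_mem_mul (hX _) (hX _)) (hX _)
    · exact Ideal.mul_mem_mul (Ideal.mul_mem_mul (hX _) (hX _)) (hX _)
  rw [pow_succ]
  exact Ideal.mul_mem_mul h3 (hX i)

theorem el_ψ (a b : k) : ψ k (Ideal.Quotient.mk (I k) (el a b)) = (a, b) := by
  rw [ψ_mk]
  simp only [φ1, φ2, el, c3_add, c3_Cmul, c3_X0, c3_X1, c3_X2, c3_X0', c3_X1', c3_X2', c3_X2'',
    c3_X0_zero, c3_X1_zero, c3_X2_zero, one_c3]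
  simp

/-- evaluation at one followed by the two functionals -/
noncomputable def F (k : Type u) [Field k] : ((RR k ⧸ mm k) →ₗ[RR k] RR k) →ₗ[k] k × k where
  toFun f := ψ k (f (Submodule.Quotient.mk 1))
  map_add' f g := by rw [LinearMap.add_apply, map_add]
  map_smul' r f := by rw [LinearMap.smul_apply, map_smul, RingHom.id_apply]

theorem F_inj : Function.Injective (F k) := by
  rw [injective_iff_map_eq_zero]
  intro f hf
  have h1 : f (Submodule.Quotient.mk 1) = 0 := by
    apply soc _ _ hf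
    intro i
    rw [mul_comm, ← smul_eq_mul, ← map_smul]
    have : xx k i • (Submodule.Quotient.mk 1 : RR k ⧸ mm k) = 0 := by
      rw [← Submodule.Quotient.mk_smul, Submodule.Quotient.mk_eq_zero, smul_eq_mul, mul_one]
      exact Ideal.subset_span ⟨i, rfl⟩
    rw [this, map_zero]
  apply LinearMap.ext
  intro x
  obtain ⟨r, rfl⟩ := Submodule.Quotient.mk_surjective _ x
  rw [show r = r • (1 : RR k) by rw [smul_eq_mul, mul_one], Submodule.Quotient.mk_smul, map_smul,
    h1, smul_zero]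
  rfl

theorem F_surj : Function.Surjective (F k) := by
  rintro ⟨a, b⟩
  refine ⟨Submodule.liftQ (mm k) (LinearMap.toSpanSingleton (RR k) (RR k)
    (Ideal.Quotient.mk (I k) (el a b))) ?_, ?_⟩
  · rw [Ideal.span_le]
    rintro _ ⟨i, rfl⟩
    change xx k i • Ideal.Quotient.mk (I k) (el a b) = 0
    rw [smul_eq_mul, mul_comm, el_mem]
  · change ψ k (Submodule.liftQ _ _ _ (Submodule.Quotient.mk 1)) = _
    rw [Submodule.liftQ_apply, LinearMap.toSpanSingleton_apply, one_smul, el_ψ]

theorem type_two : Module.finrank k ((RR k ⧸ mm k) →ₗ[RR k] RR k) = 2 := by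
  rw [(LinearEquiv.ofBijective (F k) ⟨F_inj, F_surj⟩).finrank_eq, Module.finrank_prod,
    Module.finrank_self]

end Pool.Agent.Q121.Golod
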