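import Pool.Agent.Q121.Golod.Defs

/-! # The Koszul complex of three elements -/

set_option autoImplicit false

universe u

namespace Pool.Agent.Q121.Golod

variable {R : Type u} [CommRing R]

abbrev KK (R : Type u) [CommRing R] := ExteriorAlgebra R (Fin 3 → R)

/-- the generators -/
noncomputable def e (a : Fin 3) : KK R := ExteriorAlgebra.ι R (Pi.single a 1)

theorem kd_ι {n : ℕ} (x : Fin n → R) (v : Fin n → R) :
    kd x (ExteriorAlgebra.ι R v) = algebraMap R _ (∑ a, v a * x a) := by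
  rw [kd, CliffordAlgebra.contractLeft_ι]
  simp [Fintype.linearCombination_apply]

theorem kd_e (x : Fin 3 → R) (a : Fin 3) : kd x (e a) = algebraMap R _ (x a) := by
  rw [e, kd_ι]
  simp [Pi.single_apply]

theorem kd_e_mul (x : Fin 3 → R) (a : Fin 3) (c : KK R) :
    kd x (e a * c) = x a • c - e a * kd x c := by
  unfold kd e
  rw [CliffordAlgebra.contractLeft_ι_mul]
  simp [Fintype.linearCombination_apply, Pi.single_apply]

theorem ee_self (a : Fin 3) : (e a : KK R) * e a = 0 := ExteriorAlgebra.ι_sq_zero _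

theorem ee_swap (a b : Fin 3) : (e a : KK R) * e b = - (e b * e a) := by
  have := ExteriorAlgebra.ι_add_mul_swap (R := R) (Pi.single a 1 : Fin 3 → R) (Pi.single b 1)
  exact eq_neg_of_add_eq_zero_left this

theorem ι_eq (v : Fin 3 → R) :
    ExteriorAlgebra.ι R v = v 0 • e 0 + v 1 • e 1 + v 2 • (e 2 : KK R) := by
  unfold e
  rw [← map_smul, ← map_smul, ← map_smul, ← map_add, ← map_add]
  congr 1
  funext i
  fin_cases i <;> simp

theorem mem_one_iff (c : KK R) : c ∈ ⋀[R]^1 (Fin 3 → R) ↔ ∃ v, ExteriorAlgebra.ι R v = c := by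
  rw [ExteriorAlgebra.exteriorPower, pow_one]
  rfl

theorem e_mem (a : Fin 3) : (e a : KK R) ∈ ⋀[R]^1 (Fin 3 → R) := (mem_one_iff _).2 ⟨_, rfl⟩

theorem mul_mem_pow {i j : ℕ} {a b : KK R} (ha : a ∈ ⋀[R]^i (Fin 3 → R))
    (hb : b ∈ ⋀[R]^j (Fin 3 → R)) : a * b ∈ ⋀[R]^(i + j) (Fin 3 → R) := by
  rw [ExteriorAlgebra.exteriorPower] at *
  rw [pow_add]
  exact Submodule.mul_mem_mul ha hb

theorem ee_mem (a b : Fin 3) : (e a * e b : KK R) ∈ ⋀[R]^2 (Fin 3 → R) :=
  mul_mem_pow (e_mem a) (e_mem b)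

theorem eee_mem (a b c : Fin 3) : (e a * (e b * e c) : KK R) ∈ ⋀[R]^3 (Fin 3 → R) :=
  mul_mem_pow (e_mem a) (ee_mem b c)

theorem two (c : KK R) (hc : c ∈ ⋀[R]^2 (Fin 3 → R)) :
    ∃ p q r : R, c = p • (e 0 * e 1) + q • (e 0 * e 2) + r • (e 1 * e 2) := by
  rw [ExteriorAlgebra.exteriorPower, pow_two] at hc
  refine Submodule.mul_induction_on hc ?_ ?_
  · rintro _ ⟨u, rfl⟩ _ ⟨v, rfl⟩
    refine ⟨u 0 * v 1 - u 1 * v 0, u 0 * v 2 - u 2 * v 0, u 1 * v 2 - u 2 * v 1, ?_⟩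
    have h10 : (e 1 : KK R) * e 0 = - (e 0 * e 1) := ee_swap _ _
    have h20 : (e 2 : KK R) * e 0 = - (e 0 * e 2) := ee_swap _ _
    have h21 : (e 2 : KK R) * e 1 = - (e 1 * e 2) := ee_swap _ _
    rw [ι_eq u, ι_eq v]
    simp only [add_mul, mul_add, smul_mul_smul_comm, ee_self, h10, h20, h21]
    module
  · rintro x y ⟨p, q, r, rfl⟩ ⟨p', q', r', rfl⟩
    exact ⟨p + p', q + q', r + r', by module⟩

theorem three (c : KK R) (hc : c ∈ ⋀[R]^3 (Fin 3 → R)) :
    ∃ p : R, c = p • (e 0 * (e 1 * e 2)) := by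
  rw [ExteriorAlgebra.exteriorPower, pow_succ'] at hc
  refine Submodule.mul_induction_on hc ?_ ?_
  · rintro _ ⟨u, rfl⟩ y hy
    obtain ⟨p, q, r, rfl⟩ := two y hy
    refine ⟨u 0 * r - u 1 * q + u 2 * p, ?_⟩
    have h00 : ∀ y : KK R, e 0 * (e 0 * y) = 0 := fun y => by rw [← mul_assoc, ee_self, zero_mul]
    have h11 : ∀ y : KK R, e 1 * (e 1 * y) = 0 := fun y => by rw [← mul_assoc, ee_self, zero_mul]
    have h10 : ∀ y : KK R, e 1 * (e 0 * y) = - (e 0 * (e 1 * y)) := fun y => by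
      rw [← mul_assoc, ee_swap 1 0, neg_mul, mul_assoc]
    have h20 : ∀ y : KK R, e 2 * (e 0 * y) = - (e 0 * (e 2 * y)) := fun y => by
      rw [← mul_assoc, ee_swap 2 0, neg_mul, mul_assoc]
    have h21 : ∀ y : KK R, e 2 * (e 1 * y) = - (e 1 * (e 2 * y)) := fun y => by
      rw [← mul_assoc, ee_swap 2 1, neg_mul, mul_assoc]
    have h21' : (e 2 : KK R) * e 1 = - (e 1 * e 2) := ee_swap _ _
    rw [ι_eq u]
    simp only [add_mul, mul_add, smul_mul_smul_comm, h00, h11, h10, h20, h21, ee_self, mul_zero,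
      h21', mul_neg, neg_neg, smul_zero, neg_zero]
    module
  · rintro x y ⟨p, rfl⟩ ⟨p', rfl⟩
    exact ⟨p + p', by module⟩

theorem four (n : ℕ) (c : KK R) (hc : c ∈ ⋀[R]^(n + 4) (Fin 3 → R)) : c = 0 := by
  induction n generalizing c with
  | zero =>
    rw [ExteriorAlgebra.exteriorPower, zero_add, pow_succ'] at hc
    refine Submodule.mul_induction_on hc ?_ ?_
    · rintro _ ⟨u, rfl⟩ y hy
      obtain ⟨p, rfl⟩ := three y hy
      have h00 : ∀ y : KK R, e 0 * (e 0 * y) = 0 := fun y => by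
        rw [← mul_assoc, ee_self, zero_mul]
      have h11 : ∀ y : KK R, e 1 * (e 1 * y) = 0 := fun y => by
        rw [← mul_assoc, ee_self, zero_mul]
      have h10 : ∀ y : KK R, e 1 * (e 0 * y) = - (e 0 * (e 1 * y)) := fun y => by
        rw [← mul_assoc, ee_swap 1 0, neg_mul, mul_assoc]
      have h20 : ∀ y : KK R, e 2 * (e 0 * y) = - (e 0 * (e 2 * y)) := fun y => by
        rw [← mul_assoc, ee_swap 2 0, neg_mul, mul_assoc]
      have h21 : ∀ y : KK R, e 2 * (e 1 * y) = - (e 1 * (e 2 * y)) := fun y => by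
        rw [← mul_assoc, ee_swap 2 1, neg_mul, mul_assoc]
      rw [ι_eq u]
      simp only [add_mul, smul_mul_smul_comm, h00, h11, h10, h20, h21, ee_self, mul_zero,
        smul_zero, neg_zero, add_zero]
    · rintro x y rfl rfl
      exact add_zero _
  | succ n ih =>
    rw [ExteriorAlgebra.exteriorPower, show n + 1 + 4 = (n + 4) + 1 by ring, pow_succ'] at hc
    refine Submodule.mul_induction_on hc ?_ ?_
    · rintro _ ⟨u, rfl⟩ y hy
      rw [ih y hy, mul_zero]
    · rintro x y rfl rfl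
      exact add_zero _

end Pool.Agent.Q121.Golod
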