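import Pool.Agent.Q121.Golod.Cyc

/-! # The trivial Massey operation -/

set_option autoImplicit false

universe u

namespace Pool.Agent.Q121.Golod

variable {k R : Type u} [Field k] [CommRing R] [Algebra k R] {x : Fin 3 → R}

/-- `k`-linear structure of the Koszul complex -/
noncomputable local instance : Module k (KK R) := Module.compHom _ (algebraMap k R)

theorem ksmul (a : k) (c : KK R) : a • c = algebraMap k R a • c := rfl

/-- cycles of degree `i + 1` in `m² K` -/
noncomputable def Zi (k : Type u) [Field k] [Algebra k R] (x : Fin 3 → R) (i : ℕ) :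
    letI : Module k (KK R) := Module.compHom _ (algebraMap k R)
    Submodule k (KK R) :=
  letI : Module k (KK R) := Module.compHom _ (algebraMap k R)
  { carrier := {c | c ∈ ⋀[R]^(i + 1) (Fin 3 → R) ∧ kd x c = 0 ∧ c ∈ M2 x}
    add_mem' := by
      rintro a b ⟨h1, h2, h3⟩ ⟨g1, g2, g3⟩
      exact ⟨Submodule.add_mem _ h1 g1, by rw [map_add, h2, g2, add_zero],
        Submodule.add_mem _ h3 g3⟩
    zero_mem' := ⟨Submodule.zero_mem _, map_zero _, Submodule.zero_mem _⟩
    smul_mem' := by
      rintro a c ⟨h1, h2, h3⟩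
      refine ⟨Submodule.smul_mem _ (algebraMap k R a) h1, ?_, Submodule.smul_mem _ (algebraMap k R a) h3⟩
      change kd x (algebraMap k R a • c) = 0
      rw [map_smul, h2, smul_zero] }

/-- boundaries among them -/
noncomputable def Bi (k : Type u) [Field k] [Algebra k R] (x : Fin 3 → R) (i : ℕ) :
    Submodule k (Zi k x i) where
  carrier := {c | ∃ b ∈ ⋀[R]^(i + 2) (Fin 3 → R), (c : KK R) = kd x b}
  add_mem' := by
    rintro a b ⟨u, hu, h1⟩ ⟨v, hv, h2⟩
    exact ⟨u + v, Submodule.add_mem _ hu hv, by rw [Submodule.coe_add, h1, h2, map_add]⟩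
  zero_mem' := ⟨0, Submodule.zero_mem _, by rw [map_zero]; rfl⟩
  smul_mem' := by
    rintro a c ⟨u, hu, h1⟩
    refine ⟨algebraMap k R a • u, Submodule.smul_mem _ _ hu, ?_⟩
    rw [map_smul, ← h1]
    rfl

theorem exists_compl (k : Type u) [Field k] [Algebra k R] (x : Fin 3 → R) (i : ℕ) :
    ∃ C : Submodule k (Zi k x i), IsCompl (Bi k x i) C := Submodule.exists_isCompl _

/-- the complement -/
noncomputable def Ci (k : Type u) [Field k] [Algebra k R] (x : Fin 3 → R) (i : ℕ) :
    Submodule k (Zi k x i) := (exists_compl k x i).choose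

theorem Ci_compl (i : ℕ) : IsCompl (Bi k x i) (Ci k x i) := (exists_compl k x i).choose_spec

/-- the basis -/
noncomputable abbrev bas (k : Type u) [Field k] [Algebra k R] (x : Fin 3 → R) (i : ℕ) :=
  Module.Basis.ofVectorSpace k (Ci k x i)

/-- representing cycles -/
noncomputable def zz (k : Type u) [Field k] [Algebra k R] (x : Fin 3 → R) (i : ℕ)
    (l : Module.Basis.ofVectorSpaceIndex k (Ci k x i)) : KK R := ((bas k x i l : Ci k x i) : Zi k x i)

theorem zz_prop (i : ℕ) (l : Module.Basis.ofVectorSpaceIndex k (Ci k x i)) :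
    zz k x i l ∈ ⋀[R]^(i + 1) (Fin 3 → R) ∧ kd x (zz k x i l) = 0 ∧ zz k x i l ∈ M2 x :=
  ((bas k x i l : Ci k x i) : Zi k x i).2

theorem sum_zz (i : ℕ) (f : Module.Basis.ofVectorSpaceIndex k (Ci k x i) →₀ k) :
    (f.sum fun l a => algebraMap k R a • zz k x i l) =
      ((Finsupp.linearCombination k (bas k x i) f : Ci k x i) : Zi k x i) := by
  rw [Finsupp.linearCombination_apply, Finsupp.sum, Finsupp.sum]
  rw [Submodule.coe_sum, Submodule.coe_sum]
  rfl

theorem kd_mem (n : ℕ) : ∀ b ∈ ⋀[R]^(n + 1) (Fin 3 → R), kd x b ∈ ⋀[R]^n (Fin 3 → R) := by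
  induction n with
  | zero =>
    intro b hb
    obtain ⟨v, rfl⟩ := (mem_one_iff b).1 hb
    rw [kd_ι, ExteriorAlgebra.exteriorPower, pow_zero, Submodule.one_eq_range]
    exact ⟨_, rfl⟩
  | succ n ih =>
    intro b hb
    rw [ExteriorAlgebra.exteriorPower, pow_succ'] at hb
    refine Submodule.mul_induction_on hb ?_ ?_
    · rintro _ ⟨u, rfl⟩ y hy
      unfold kd
      rw [CliffordAlgebra.contractLeft_ι_mul]
      refine Submodule.sub_mem _ (Submodule.smul_mem _ _ hy) ?_
      rw [add_comm n 1]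
      exact mul_mem_pow ((mem_one_iff _).2 ⟨u, rfl⟩) (ih y hy)
    · intro y z hy hz
      rw [map_add]
      exact Submodule.add_mem _ hy hz

theorem M2_le : ∀ c ∈ M2 x, c ∈ (Ideal.span (Set.range x) • ⊤ : Submodule R (KK R)) := by
  intro c hc
  exact Submodule.smul_mono_left (Ideal.pow_le_self two_ne_zero) hc

open Classical in
/-- The trivial Massey operation. -/
theorem isGolod (h : Good x) : IsGolod k x := by
  have hsing : ∀ l l' : (Σ i : ℕ, Module.Basis.ofVectorSpaceIndex k (Ci k x i)),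
      [l] = [l'] → l = l' := fun l l' h => List.singleton_inj.1 h
  have hμ1 : ∀ l : (Σ i : ℕ, Module.Basis.ofVectorSpaceIndex k (Ci k x i)),
      (if hw : ∃ l', [l] = [l'] then zz k x hw.choose.1 hw.choose.2 else 0) = zz k x l.1 l.2 := by
    intro l
    have hw : ∃ l', [l] = [l'] := ⟨l, rfl⟩
    rw [dif_pos hw, ← hsing _ _ hw.choose_spec]
  refine ⟨{
    Λ := fun i => Module.Basis.ofVectorSpaceIndex k (Ci k x i)
    z := fun i l => zz k x i l
    z_mem := fun i l => (zz_prop i l).1
    z_cycle := fun i l => (zz_prop i l).2.1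
    span := ?_
    indep := ?_
    μ := fun w => if hw : ∃ l, w = [l] then zz k x hw.choose.1 hw.choose.2 else 0
    μ_single := hμ1
    μ_mem := ?_
    μ_max := ?_
    μ_d := ?_ }⟩
  · intro i c hc hd
    obtain ⟨b, hb, hm⟩ := cyc h i c hc hd
    have hdb : kd x (kd x b) = 0 := CliffordAlgebra.contractLeft_contractLeft _ _
    let y : Zi k x i := ⟨c - kd x b, Submodule.sub_mem _ hc (kd_mem _ _ hb), by
      rw [map_sub, hd, hdb, sub_zero], hm⟩
    obtain ⟨u, hu, v, hv, huv⟩ := Submodule.mem_sup.1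
      (show y ∈ Bi k x i ⊔ Ci k x i by
        rw [(Ci_compl (k := k) (x := x) i).sup_eq_top]; trivial)
    obtain ⟨b', hb', hub⟩ := hu
    refine ⟨(bas k x i).repr ⟨v, hv⟩, b + b', Submodule.add_mem _ hb hb', ?_⟩
    rw [sum_zz, Module.Basis.linearCombination_repr, map_add]
    have h1 : (u : KK R) + (v : KK R) = c - kd x b := congrArg Subtype.val huv
    have h2 : (v : KK R) = c - kd x b - kd x b' := by
      rw [← h1, hub]; abel
    change c = (v : KK R) + _
    rw [h2]
    abel
  · intro i f b hb hf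
    rw [sum_zz] at hf
    set γ : Ci k x i := Finsupp.linearCombination k (bas k x i) f with hγ
    have h1 : (γ : Zi k x i) ∈ Bi k x i := ⟨b, hb, hf⟩
    have h2 : (γ : Zi k x i) = 0 :=
      Submodule.disjoint_def.1 (Ci_compl (k := k) (x := x) i).disjoint _ h1 γ.2
    have h3 : γ = 0 := Subtype.ext h2
    exact (linearIndependent_iff.1 (bas k x i).linearIndependent) f h3
  · intro w hw
    by_cases h1 : ∃ l, w = [l]
    · obtain ⟨l, rfl⟩ := h1
      simp only [hμ1]
      convert (zz_prop (k := k) (x := x) l.1 l.2).1 using 2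
      simp
    · simp only [dif_neg h1]
      exact Submodule.zero_mem _
  · intro w
    by_cases h1 : ∃ l, w = [l]
    · obtain ⟨l, rfl⟩ := h1
      simp only [hμ1]
      exact M2_le _ (zz_prop (k := k) (x := x) l.1 l.2).2.2
    · simp only [dif_neg h1]
      exact Submodule.zero_mem _
  · intro w hw
    have h1 : ¬ ∃ l, w = [l] := by
      rintro ⟨l, rfl⟩
      simp at hw
    simp only [dif_neg h1, map_zero]
    symm
    apply Finset.sum_eq_zero
    intro j hj
    by_cases h2 : ∃ l, w.take j = [l]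
    · by_cases h3 : ∃ l, w.drop j = [l]
      · obtain ⟨l, hl⟩ := h2
        obtain ⟨l', hl'⟩ := h3
        rw [hl, hl']
        simp only [hμ1]
        rw [M2_mul h (zz_prop (k := k) (x := x) l.1 l.2).2.2 (zz_prop (k := k) (x := x) l'.1 l'.2).2.2,
          smul_zero]
      · rw [dif_neg h3, mul_zero, smul_zero]
    · rw [dif_neg h2, zero_mul, smul_zero]

end Pool.Agent.Q121.Golod
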