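import Pool.Agent.Q121.Golod.Massey

/-! # The ideal -/

set_option autoImplicit false

universe u

open MvPolynomial

namespace Pool.Agent.Q121.Golod

variable {k : Type u} [Field k]

/-- exponents -/
noncomputable def E (a b c : ℕ) : Fin 3 →₀ ℕ := Finsupp.equivFunOnFinite.symm ![a, b, c]

theorem eq_E (d : Fin 3 →₀ ℕ) : d = E (d 0) (d 1) (d 2) := by
  ext i; fin_cases i <;> simp [E]

theorem E_degree (a b c : ℕ) : (E a b c).degree = a + b + c := by
  rw [Finsupp.degree_eq_sum, Fin.sum_univ_three]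
  simp [E]

theorem E_zero : E 0 0 0 = 0 := by
  ext i; fin_cases i <;> simp [E]

/-- coefficients -/
noncomputable def c3 (p : MvPolynomial (Fin 3) k) (a b c : ℕ) : k := coeff (E a b c) p

theorem c3_add (p q : MvPolynomial (Fin 3) k) (a b c : ℕ) :
    c3 (p + q) a b c = c3 p a b c + c3 q a b c := coeff_add _ _ _

theorem c3_sub (p q : MvPolynomial (Fin 3) k) (a b c : ℕ) :
    c3 (p - q) a b c = c3 p a b c - c3 q a b c := coeff_sub _ _ _ _

theorem c3_neg (p : MvPolynomial (Fin 3) k) (a b c : ℕ) :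
    c3 (-p) a b c = - c3 p a b c := coeff_neg _ _ _

theorem c3_zero (a b c : ℕ) : c3 (0 : MvPolynomial (Fin 3) k) a b c = 0 := coeff_zero _

theorem c3_Cmul (r : k) (p : MvPolynomial (Fin 3) k) (a b c : ℕ) :
    c3 (C r * p) a b c = r * c3 p a b c := coeff_C_mul _ _ _

theorem c3_C (r : k) (a b c : ℕ) :
    c3 (C r : MvPolynomial (Fin 3) k) a b c = if a = 0 ∧ b = 0 ∧ c = 0 then r else 0 := by
  rw [c3, coeff_C]
  congr 1
  rw [← E_zero, eq_iff_iff]
  constructor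
  · intro h
    have h0 := DFunLike.congr_fun h 0
    have h1 := DFunLike.congr_fun h 1
    have h2 := DFunLike.congr_fun h 2
    simp [E] at h0 h1 h2
    exact ⟨h0.symm, h1.symm, h2.symm⟩
  · rintro ⟨rfl, rfl, rfl⟩; rfl

theorem c3_X0_succ (p : MvPolynomial (Fin 3) k) (a b c : ℕ) :
    c3 (p * X 0) (a + 1) b c = c3 p a b c := by
  rw [c3, c3, show E (a + 1) b c = E a b c + Finsupp.single 0 1 by
    ext i; fin_cases i <;> simp [E], coeff_mul_X]

theorem c3_X1_succ (p : MvPolynomial (Fin 3) k) (a b c : ℕ) :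
    c3 (p * X 1) a (b + 1) c = c3 p a b c := by
  rw [c3, c3, show E a (b + 1) c = E a b c + Finsupp.single 1 1 by
    ext i; fin_cases i <;> simp [E], coeff_mul_X]

theorem c3_X2_succ (p : MvPolynomial (Fin 3) k) (a b c : ℕ) :
    c3 (p * X 2) a b (c + 1) = c3 p a b c := by
  rw [c3, c3, show E a b (c + 1) = E a b c + Finsupp.single 2 1 by
    ext i; fin_cases i <;> simp [E], coeff_mul_X]

theorem c3_X0_zero (p : MvPolynomial (Fin 3) k) (b c : ℕ) : c3 (p * X 0) 0 b c = 0 := by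
  rw [c3, coeff_mul_X', if_neg]; simp [E]

theorem c3_X1_zero (p : MvPolynomial (Fin 3) k) (a c : ℕ) : c3 (p * X 1) a 0 c = 0 := by
  rw [c3, coeff_mul_X', if_neg]; simp [E]

theorem c3_X2_zero (p : MvPolynomial (Fin 3) k) (a b : ℕ) : c3 (p * X 2) a b 0 = 0 := by
  rw [c3, coeff_mul_X', if_neg]; simp [E]

theorem mem_pow (n : ℕ) (p : MvPolynomial (Fin 3) k) :
    p ∈ idealOfVars (Fin 3) k ^ n ↔ ∀ a b c, a + b + c < n → c3 p a b c = 0 := by
  rw [mem_pow_idealOfVars_iff']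
  constructor
  · intro h a b c habc
    exact h _ (by rw [E_degree]; exact habc)
  · intro h d hd
    rw [eq_E d]
    rw [eq_E d, E_degree] at hd
    exact h _ _ _ hd

theorem mem_sq (p : MvPolynomial (Fin 3) k) : p ∈ idealOfVars (Fin 3) k ^ 2 ↔
    c3 p 0 0 0 = 0 ∧ c3 p 1 0 0 = 0 ∧ c3 p 0 1 0 = 0 ∧ c3 p 0 0 1 = 0 := by
  rw [mem_pow]
  constructor
  · intro h
    exact ⟨h _ _ _ (by norm_num), h _ _ _ (by norm_num), h _ _ _ (by norm_num),
      h _ _ _ (by norm_num)⟩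
  · rintro ⟨h0, h1, h2, h3⟩ a b c habc
    have : (a = 0 ∧ b = 0 ∧ c = 0) ∨ (a = 1 ∧ b = 0 ∧ c = 0) ∨ (a = 0 ∧ b = 1 ∧ c = 0) ∨
      (a = 0 ∧ b = 0 ∧ c = 1) := by omega
    rcases this with ⟨rfl, rfl, rfl⟩ | ⟨rfl, rfl, rfl⟩ | ⟨rfl, rfl, rfl⟩ | ⟨rfl, rfl, rfl⟩ <;>
      assumption

/-- the two functionals -/
noncomputable def φ1 (p : MvPolynomial (Fin 3) k) : k := c3 p 2 1 0 + c3 p 0 0 3
/-- the two functionals -/
noncomputable def φ2 (p : MvPolynomial (Fin 3) k) : k := c3 p 2 0 1 + c3 p 0 2 1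

/-- membership in the ideal -/
structure InI (p : MvPolynomial (Fin 3) k) : Prop where
  c000 : c3 p 0 0 0 = 0
  c100 : c3 p 1 0 0 = 0
  c010 : c3 p 0 1 0 = 0
  c001 : c3 p 0 0 1 = 0
  c200 : c3 p 2 0 0 = 0
  c020 : c3 p 0 2 0 = 0
  c002 : c3 p 0 0 2 = 0
  c110 : c3 p 1 1 0 = 0
  c101 : c3 p 1 0 1 = 0
  c011 : c3 p 0 1 1 = 0
  f1 : φ1 p = 0
  f2 : φ2 p = 0

theorem c3_X0 (p : MvPolynomial (Fin 3) k) (b c : ℕ) : c3 (p * X 0) 1 b c = c3 p 0 b c :=
  c3_X0_succ p 0 b c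
theorem c3_X1 (p : MvPolynomial (Fin 3) k) (a c : ℕ) : c3 (p * X 1) a 1 c = c3 p a 0 c :=
  c3_X1_succ p a 0 c
theorem c3_X2 (p : MvPolynomial (Fin 3) k) (a b : ℕ) : c3 (p * X 2) a b 1 = c3 p a b 0 :=
  c3_X2_succ p a b 0
theorem c3_X0' (p : MvPolynomial (Fin 3) k) (b c : ℕ) : c3 (p * X 0) 2 b c = c3 p 1 b c :=
  c3_X0_succ p 1 b c
theorem c3_X1' (p : MvPolynomial (Fin 3) k) (a c : ℕ) : c3 (p * X 1) a 2 c = c3 p a 1 c :=
  c3_X1_succ p a 1 c
theorem c3_X2' (p : MvPolynomial (Fin 3) k) (a b : ℕ) : c3 (p * X 2) a b 2 = c3 p a b 1 :=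
  c3_X2_succ p a b 1
theorem c3_X2'' (p : MvPolynomial (Fin 3) k) (a b : ℕ) : c3 (p * X 2) a b 3 = c3 p a b 2 :=
  c3_X2_succ p a b 2

theorem InI.mul_X {p : MvPolynomial (Fin 3) k} (h : InI p) (i : Fin 3) : InI (p * X i) := by
  obtain ⟨h1, h2, h3, h4, h5, h6, h7, h8, h9, h10, -, -⟩ := h
  fin_cases i <;> constructor <;>
    simp only [Fin.zero_eta, Fin.mk_one, Fin.reduceFinMk, φ1, φ2, c3_X0, c3_X1, c3_X2, c3_X0',
      c3_X1', c3_X2', c3_X2'', c3_X0_zero, c3_X1_zero, c3_X2_zero, h1, h2, h3, h4, h5, h6, h7, h8,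
      h9, h10, add_zero]

theorem InI.add {p q : MvPolynomial (Fin 3) k} (h : InI p) (g : InI q) : InI (p + q) := by
  obtain ⟨h1, h2, h3, h4, h5, h6, h7, h8, h9, h10, h11, h12⟩ := h
  obtain ⟨g1, g2, g3, g4, g5, g6, g7, g8, g9, g10, g11, g12⟩ := g
  unfold φ1 at h11 g11
  unfold φ2 at h12 g12
  constructor <;> simp only [c3_add, φ1, φ2, h1, h2, h3, h4, h5, h6, h7, h8, h9, h10, g1, g2, g3,
    g4, g5, g6, g7, g8, g9, g10, add_zero]
  · linear_combination h11 + g11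
  · linear_combination h12 + g12

theorem InI.Cmul {p : MvPolynomial (Fin 3) k} (h : InI p) (r : k) : InI (C r * p) := by
  obtain ⟨h1, h2, h3, h4, h5, h6, h7, h8, h9, h10, h11, h12⟩ := h
  unfold φ1 at h11
  unfold φ2 at h12
  constructor <;> simp only [c3_Cmul, φ1, φ2, h1, h2, h3, h4, h5, h6, h7, h8, h9, h10, mul_zero]
  · linear_combination r * h11
  · linear_combination r * h12

theorem InI.zero : InI (0 : MvPolynomial (Fin 3) k) := by
  constructor <;> simp only [c3_zero, φ1, φ2, add_zero]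

theorem InI.mul {p : MvPolynomial (Fin 3) k} (h : InI p) (g : MvPolynomial (Fin 3) k) :
    InI (g * p) := by
  induction g using MvPolynomial.induction_on with
  | C a => exact h.Cmul a
  | add p q hp hq => rw [add_mul]; exact hp.add hq
  | mul_X q i hq =>
    rw [mul_right_comm]
    exact hq.mul_X i

/-- the ideal -/
noncomputable def I (k : Type u) [Field k] : Ideal (MvPolynomial (Fin 3) k) where
  carrier := {p | InI p}
  add_mem' := fun h g => h.add g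
  zero_mem' := InI.zero
  smul_mem' := fun g _ h => h.mul g

theorem mem_I (p : MvPolynomial (Fin 3) k) : p ∈ I k ↔ InI p := Iff.rfl

theorem I_of_four (p : MvPolynomial (Fin 3) k) (hp : p ∈ idealOfVars (Fin 3) k ^ 4) : p ∈ I k := by
  rw [mem_pow] at hp
  rw [mem_I]
  constructor <;> first
    | exact hp _ _ _ (by norm_num)
    | (unfold φ1; rw [hp _ _ _ (by norm_num), hp _ _ _ (by norm_num), add_zero])
    | (unfold φ2; rw [hp _ _ _ (by norm_num), hp _ _ _ (by norm_num), add_zero])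

theorem I_le : I k ≤ idealOfVars (Fin 3) k ^ 2 := by
  intro p hp
  rw [mem_sq]
  exact ⟨hp.c000, hp.c100, hp.c010, hp.c001⟩

theorem four_le : idealOfVars (Fin 3) k ^ 4 ≤ I k := fun p hp => I_of_four p hp

end Pool.Agent.Q121.Golod
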