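import Pool.Agent.Q121.Golod.Pol

/-! # The quotient ring -/

set_option autoImplicit false

universe u

open MvPolynomial

namespace Pool.Agent.Q121.Golod

variable {k : Type u} [Field k]

/-- the ring -/
abbrev RR (k : Type u) [Field k] := MvPolynomial (Fin 3) k ⧸ I k

/-- the variables -/
noncomputable def xx (k : Type u) [Field k] (i : Fin 3) : RR k := Ideal.Quotient.mk (I k) (X i)

theorem m_eq : Ideal.span (Set.range (xx k)) =
    (idealOfVars (Fin 3) k).map (Ideal.Quotient.mk (I k)) := by
  rw [idealOfVars, Ideal.map_span]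
  congr 1
  rw [← Set.range_comp]
  rfl

theorem msq_eq : Ideal.span (Set.range (xx k)) ^ 2 =
    (idealOfVars (Fin 3) k ^ 2).map (Ideal.Quotient.mk (I k)) := by
  rw [m_eq, Ideal.map_pow]

theorem mk_mem (p : MvPolynomial (Fin 3) k) (h : p ∈ idealOfVars (Fin 3) k ^ 2) :
    Ideal.Quotient.mk (I k) p ∈ Ideal.span (Set.range (xx k)) ^ 2 := by
  rw [msq_eq]
  exact Ideal.mem_map_of_mem _ h

theorem mk_eq_zero (p : MvPolynomial (Fin 3) k) : Ideal.Quotient.mk (I k) p = 0 ↔ InI p := by
  rw [Ideal.Quotient.eq_zero_iff_mem]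
  exact Iff.rfl

theorem good : Good (xx k) := by
  constructor
  · intro a ha b hb
    rw [msq_eq] at ha hb
    obtain ⟨p, hp, rfl⟩ := (Ideal.mem_map_iff_of_surjective _ Ideal.Quotient.mk_surjective).1 ha
    obtain ⟨q, hq, rfl⟩ := (Ideal.mem_map_iff_of_surjective _ Ideal.Quotient.mk_surjective).1 hb
    rw [← map_mul, mk_eq_zero]
    apply I_of_four
    rw [show (4 : ℕ) = 2 + 2 from rfl, pow_add]
    exact Ideal.mul_mem_mul hp hq
  · intro a b c habc
    obtain ⟨A, rfl⟩ := Ideal.Quotient.mk_surjective a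
    obtain ⟨B, rfl⟩ := Ideal.Quotient.mk_surjective b
    obtain ⟨D, rfl⟩ := Ideal.Quotient.mk_surjective c
    have h1 : Ideal.Quotient.mk (I k) (A * X 0 + B * X 1 + D * X 2) = 0 := by
      rw [map_add, map_add, map_mul, map_mul, map_mul]
      exact habc
    rw [mk_eq_zero] at h1
    obtain ⟨-, g100, g010, g001, g200, g020, g002, g110, g101, g011, -, -⟩ := h1
    simp only [c3_add, c3_X0, c3_X1, c3_X2, c3_X0', c3_X1', c3_X2', c3_X0_zero, c3_X1_zero,
      c3_X2_zero, add_zero, zero_add] at g100 g010 g001 g200 g020 g002 g110 g101 g011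
    refine ⟨Ideal.Quotient.mk (I k) (C (c3 A 0 1 0)), Ideal.Quotient.mk (I k) (C (c3 A 0 0 1)),
      Ideal.Quotient.mk (I k) (C (c3 B 0 0 1)), ?_, ?_, ?_⟩
    · have := mk_mem (A - (C (c3 A 0 1 0) * X 1 + C (c3 A 0 0 1) * X 2)) (by
        rw [mem_sq]
        simp only [c3_sub, c3_add, c3_X0, c3_X1, c3_X2, c3_X0_zero, c3_X1_zero, c3_X2_zero, c3_C]
        simp [g100, g200])
      rw [map_sub, map_add, map_mul, map_mul] at this
      exact this
    · have := mk_mem (B - (-(C (c3 A 0 1 0) * X 0) + C (c3 B 0 0 1) * X 2)) (by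
        rw [mem_sq]
        simp only [c3_sub, c3_add, c3_neg, c3_X0, c3_X1, c3_X2, c3_X0_zero, c3_X1_zero,
          c3_X2_zero, c3_C]
        simp [g010, g020]
        linear_combination g110)
      rw [map_sub, map_add, map_neg, map_mul, map_mul] at this
      exact this
    · have := mk_mem (D - (-(C (c3 A 0 0 1) * X 0) - C (c3 B 0 0 1) * X 1)) (by
        rw [mem_sq]
        simp only [c3_sub, c3_add, c3_neg, c3_X0, c3_X1, c3_X2, c3_X0_zero, c3_X1_zero,
          c3_X2_zero, c3_C]
        simp [g001, g002]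
        constructor
        · linear_combination g101
        · linear_combination g011)
      rw [map_sub, map_sub, map_neg, map_mul, map_mul] at this
      exact this
  · intro p q r e1 e2 e3
    obtain ⟨P, rfl⟩ := Ideal.Quotient.mk_surjective p
    obtain ⟨Q, rfl⟩ := Ideal.Quotient.mk_surjective q
    obtain ⟨T, rfl⟩ := Ideal.Quotient.mk_surjective r
    have h1 : Ideal.Quotient.mk (I k) (P * X 1 + Q * X 2) = 0 := by
      rw [map_add, map_mul, map_mul]; exact e1
    have h2 : Ideal.Quotient.mk (I k) (P * X 0 - T * X 2) = 0 := by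
      rw [map_sub, map_mul, map_mul]; exact e2
    have h3 : Ideal.Quotient.mk (I k) (Q * X 0 + T * X 1) = 0 := by
      rw [map_add, map_mul, map_mul]; exact e3
    rw [mk_eq_zero] at h1 h2 h3
    obtain ⟨-, a100, a010, a001, a200, a020, a002, a110, a101, a011, -, -⟩ := h1
    obtain ⟨-, b100, b010, b001, b200, b020, b002, b110, b101, b011, -, -⟩ := h2
    obtain ⟨-, d100, d010, d001, d200, d020, d002, d110, d101, d011, -, -⟩ := h3
    simp only [c3_add, c3_sub, c3_X0, c3_X1, c3_X2, c3_X0', c3_X1', c3_X2', c3_X0_zero,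
      c3_X1_zero, c3_X2_zero, add_zero, zero_add, sub_zero, zero_sub, neg_eq_zero] at *
    refine ⟨Ideal.Quotient.mk (I k) (C (c3 P 0 0 1)), ?_, ?_, ?_⟩
    · have := mk_mem (P - C (c3 P 0 0 1) * X 2) (by
        rw [mem_sq]
        simp only [c3_sub, c3_add, c3_neg, c3_X0, c3_X1, c3_X2, c3_X0_zero, c3_X1_zero,
          c3_X2_zero, c3_C]
        simp_all)
      rw [map_sub, map_mul] at this
      exact this
    · have := mk_mem (Q + C (c3 P 0 0 1) * X 1) (by
        rw [mem_sq]
        simp only [c3_sub, c3_add, c3_neg, c3_X0, c3_X1, c3_X2, c3_X0_zero, c3_X1_zero,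
          c3_X2_zero, c3_C]
        refine ⟨?_, ?_, ?_, ?_⟩
        · simp_all
        · simp_all
        · simp; linear_combination a011
        · simp_all)
      rw [map_add, map_mul] at this
      exact this
    · have := mk_mem (T - C (c3 P 0 0 1) * X 0) (by
        rw [mem_sq]
        simp only [c3_sub, c3_add, c3_neg, c3_X0, c3_X1, c3_X2, c3_X0_zero, c3_X1_zero,
          c3_X2_zero, c3_C]
        refine ⟨?_, ?_, ?_, ?_⟩
        · simp_all
        · simp; linear_combination -b101
        · simp_all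
        · simp_all)
      rw [map_sub, map_mul] at this
      exact this
  · intro p e0 e1 e2
    obtain ⟨P, rfl⟩ := Ideal.Quotient.mk_surjective p
    have h0 : Ideal.Quotient.mk (I k) (P * X 0) = 0 := by rw [map_mul]; exact e0
    rw [mk_eq_zero] at h0
    apply mk_mem
    rw [mem_sq]
    refine ⟨by simpa only [c3_X0] using h0.c100, by simpa only [c3_X0'] using h0.c200,
      by simpa only [c3_X0] using h0.c110, by simpa only [c3_X0] using h0.c101⟩

theorem golod : IsGolod k (xx k) := isGolod good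

end Pool.Agent.Q121.Golod
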